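import Pool.Agent.Helper84.OS.Wt
import Pool.Graph.R_seed8.W54.TCF.NT

/-! The integral of Montgomery's function. -/

open Filter Topology Complex MeasureTheory

namespace Pool.Agent.Helper84.OS

open Pool.Agent.Results.MP_103a5c_nt.BohrSetPairs (r mont)
open H332B

/-- the integral of Montgomery's function over `[0, a]` -/
noncomputable def cum (T a : ℝ) : ℝ := (∫ α in (0 : ℝ)..a, Wp T (α * Real.log T)) / X T

lemma Wc (hRH : RiemannHypothesis) (T : ℝ) : Continuous (fun α : ℝ => Wp T (α * Real.log T)) :=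
  Avg.W_cont wpc hRH T _

lemma Wn (T α : ℝ) : 0 ≤ Wp T (α * Real.log T) := Avg.W_nonneg T _

lemma Wi (hRH : RiemannHypothesis) (T a b : ℝ) :
    IntervalIntegrable (fun α : ℝ => Wp T (α * Real.log T)) volume a b :=
  (Wc hRH T).intervalIntegrable _ _

lemma Wneg (hRH : RiemannHypothesis) (T α : ℝ) :
    Wp T (-α * Real.log T) = Wp T (α * Real.log T) := by
  rw [wpc hRH, wpc hRH]
  unfold K2
  refine Finset.sum_congr rfl fun s _ => Finset.sum_congr rfl fun s' _ => ?_
  show _ * (_ * Real.cos (-α * Real.log T * (s.im - s'.im))) = _ * (_ * Real.cos _)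
  rw [show -α * Real.log T * (s.im - s'.im) = -(α * Real.log T * (s.im - s'.im)) by ring,
    Real.cos_neg]

lemma X_pos {T : ℝ} (hT : 1 < T) : 0 < X T := by
  unfold X
  have := Real.log_pos hT
  have := Real.pi_pos
  positivity

lemma cum_sub (hRH : RiemannHypothesis) (T a b : ℝ) :
    cum T b - cum T a = (∫ α in a..b, Wp T (α * Real.log T)) / X T := by
  unfold cum
  rw [← sub_div, intervalIntegral.integral_interval_sub_left (Wi hRH T _ _) (Wi hRH T _ _)]

lemma cum_mono (hRH : RiemannHypothesis) {T a b : ℝ} (hT : 1 < T) (hab : a ≤ b) :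
    cum T a ≤ cum T b := by
  have h := cum_sub hRH T a b
  have h1 : 0 ≤ (∫ α in a..b, Wp T (α * Real.log T)) / X T :=
    div_nonneg (intervalIntegral.integral_nonneg hab fun α _ => Wn T α) (X_pos hT).le
  linarith

lemma even_int {W : ℝ → ℝ} (hW : Continuous W) (he : ∀ α, W (-α) = W α) :
    ∫ α in (-1 : ℝ)..1, W α = 2 * ∫ α in (0 : ℝ)..1, W α := by
  rw [← intervalIntegral.integral_add_adjacent_intervals (a := -1) (b := 0) (c := 1)
    (hW.intervalIntegrable _ _) (hW.intervalIntegrable _ _)]
  have := intervalIntegral.integral_comp_neg (a := 0) (b := 1) W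
  rw [neg_zero] at this
  rw [← this]
  simp_rw [he]
  ring

lemma cut_split {W : ℝ → ℝ} (hW : Continuous W) (hn : ∀ α, 0 ≤ W α) (he : ∀ α, W (-α) = W α)
    {a b : ℝ} (ha : 0 ≤ a) (hab : a < b) (hb : b < 1) :
    2 * ∫ α in (0 : ℝ)..a, W α ≤ ∫ α in (-1 : ℝ)..1, cut a b α * W α ∧
    ∫ α in (-1 : ℝ)..1, cut a b α * W α ≤ 2 * ∫ α in (0 : ℝ)..b, W α := by
  have hc : Continuous fun α => cut a b α * W α := cut_cont.mul hW
  rw [even_int hc (fun α => by rw [cut_neg, he])]
  have hcn : ∀ α, 0 ≤ cut a b α * W α := fun α => mul_nonneg (cut_nonneg α) (hn α)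
  constructor
  · have h1 : ∫ α in (0 : ℝ)..a, W α = ∫ α in (0 : ℝ)..a, cut a b α * W α := by
      refine intervalIntegral.integral_congr fun α hα => ?_
      rw [Set.uIcc_of_le ha] at hα
      show W α = cut a b α * W α
      rw [cut_one ha hab (by rw [abs_of_nonneg hα.1]; exact hα.2), one_mul]
    rw [h1, ← intervalIntegral.integral_add_adjacent_intervals (a := 0) (b := a) (c := 1)
      (hc.intervalIntegrable _ _) (hc.intervalIntegrable _ _)]
    have h2 : 0 ≤ ∫ α in a..1, cut a b α * W α :=
      intervalIntegral.integral_nonneg (by linarith) fun α _ => hcn α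
    linarith
  · rw [← intervalIntegral.integral_add_adjacent_intervals (a := 0) (b := b) (c := 1)
      (hc.intervalIntegrable _ _) (hc.intervalIntegrable _ _)]
    have h1 : ∫ α in b..1, cut a b α * W α = 0 := by
      rw [← intervalIntegral.integral_zero (a := b) (b := 1)]
      refine intervalIntegral.integral_congr fun α hα => ?_
      rw [Set.uIcc_of_le hb.le] at hα
      show cut a b α * W α = 0
      rw [cut_zero ha hab (hα.1.trans (le_abs_self _)), zero_mul]
    have h2 : ∫ α in (0 : ℝ)..b, cut a b α * W α ≤ ∫ α in (0 : ℝ)..b, W α := by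
      refine intervalIntegral.integral_mono_on (by linarith) (hc.intervalIntegrable _ _)
        (hW.intervalIntegrable _ _) fun α _ => ?_
      exact mul_le_of_le_one_left (hn α) (cut_le_one α)
    linarith

lemma int_id (a : ℝ) : ∫ α in (0 : ℝ)..a, α = a ^ 2 / 2 := by
  rw [integral_id]
  ring

lemma mont_cut {a b : ℝ} (ha : 0 ≤ a) (hab : a < b) (hb : b < 1) :
    1 + a ^ 2 ≤ mont (cut a b) ∧ mont (cut a b) ≤ 1 + b ^ 2 := by
  have h0 : cut a b 0 = 1 := cut_one ha hab (by rw [abs_zero]; exact ha)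
  have hc : Continuous fun α => α * cut a b α := continuous_id.mul cut_cont
  unfold mont
  rw [h0]
  constructor
  · have h1 : ∫ α in (0 : ℝ)..a, α = ∫ α in (0 : ℝ)..a, α * cut a b α := by
      refine intervalIntegral.integral_congr fun α hα => ?_
      rw [Set.uIcc_of_le ha] at hα
      show α = α * cut a b α
      rw [cut_one ha hab (by rw [abs_of_nonneg hα.1]; exact hα.2), mul_one]
    rw [int_id] at h1
    rw [← intervalIntegral.integral_add_adjacent_intervals (a := 0) (b := a) (c := 1)
      (hc.intervalIntegrable _ _) (hc.intervalIntegrable _ _)]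
    have h2 : 0 ≤ ∫ α in a..1, α * cut a b α :=
      intervalIntegral.integral_nonneg (by linarith) fun α hα =>
        mul_nonneg (ha.trans hα.1) (cut_nonneg α)
    linarith
  · rw [← intervalIntegral.integral_add_adjacent_intervals (a := 0) (b := b) (c := 1)
      (hc.intervalIntegrable _ _) (hc.intervalIntegrable _ _)]
    have h1 : ∫ α in b..1, α * cut a b α = 0 := by
      rw [← intervalIntegral.integral_zero (a := b) (b := 1)]
      refine intervalIntegral.integral_congr fun α hα => ?_
      rw [Set.uIcc_of_le hb.le] at hα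
      show α * cut a b α = 0
      rw [cut_zero ha hab (hα.1.trans (le_abs_self _)), mul_zero]
    have h2 : ∫ α in (0 : ℝ)..b, α * cut a b α ≤ ∫ α in (0 : ℝ)..b, α := by
      refine intervalIntegral.integral_mono_on (by linarith) (hc.intervalIntegrable _ _)
        (continuous_id.intervalIntegrable _ _) fun α hα => ?_
      exact mul_le_of_le_one_right hα.1 (cut_le_one α)
    rw [int_id] at h2
    linarith

/-- **Montgomery's theorem for the integral of `F`** -/
theorem cum_lim (hRH : RiemannHypothesis) {b : ℝ} (hb0 : 0 < b) (hb1 : b < 1) :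
    Tendsto (fun T => cum T b) atTop (𝓝 (1 / 2 + b ^ 2 / 2)) := by
  rw [Metric.tendsto_nhds]
  intro ε hε
  set δ : ℝ := min (min (b / 2) ((1 - b) / 2)) (ε / 4) with hδ
  have hδ0 : 0 < δ := lt_min (lt_min (by linarith) (by linarith)) (by linarith)
  have hδ1 : δ ≤ b / 2 := (min_le_left _ _).trans (min_le_left _ _)
  have hδ2 : δ ≤ (1 - b) / 2 := (min_le_left _ _).trans (min_le_right _ _)
  have hδ3 : δ ≤ ε / 4 := min_le_right _ _
  have l1 := mont_Wp hRH (ntf (a := b - δ) (b := b) (by linarith) (by linarith) hb1)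
  have l2 := mont_Wp hRH (ntf (a := b) (b := b + δ) hb0.le (by linarith) (by linarith))
  have m1 := (mont_cut (a := b - δ) (b := b) (by linarith) (by linarith) hb1).1
  have m2 := (mont_cut (a := b) (b := b + δ) hb0.le (by linarith) (by linarith)).2
  have e1 := (Metric.tendsto_nhds.1 l1) (ε / 2) (by positivity)
  have e2 := (Metric.tendsto_nhds.1 l2) (ε / 2) (by positivity)
  filter_upwards [e1, e2, eventually_gt_atTop (1 : ℝ)] with T h1 h2 hT
  have hX := X_pos hT
  rw [Real.dist_eq, abs_lt] at h1 h2 ⊢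
  have s1 := (cut_split (Wc hRH T) (Wn T) (fun α => Wneg hRH T α) (a := b - δ) (b := b)
    (by linarith) (by linarith) hb1).2
  have s2 := (cut_split (Wc hRH T) (Wn T) (fun α => Wneg hRH T α) (a := b) (b := b + δ)
    hb0.le (by linarith) (by linarith)).1
  have t1 : (∫ α in (-1 : ℝ)..1, cut (b - δ) b α * Wp T (α * Real.log T)) / X T ≤
      2 * cum T b := by
    unfold cum
    rw [← mul_div_assoc]
    exact div_le_div_of_nonneg_right s1 hX.le
  have t2 : 2 * cum T b ≤
      (∫ α in (-1 : ℝ)..1, cut b (b + δ) α * Wp T (α * Real.log T)) / X T := by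
    unfold cum
    rw [← mul_div_assoc]
    exact div_le_div_of_nonneg_right s2 hX.le
  constructor
  · nlinarith [h1.1]
  · nlinarith [h2.2]

/-- bound of the integral of `F` -/
lemma cum_bound (hRH : RiemannHypothesis) : ∃ C T0 : ℝ, 0 < C ∧ 2 ≤ T0 ∧ ∀ T : ℝ, T0 ≤ T →
    ∀ a : ℝ, 0 ≤ a → cum T a ≤ 2 * a + C := by
  obtain ⟨C, T1, hC, h⟩ := avg hRH
  refine ⟨C, max T1 2, hC, le_max_right _ _, fun T hT a ha => ?_⟩
  have hX := X_pos (T := T) (by
    have := (le_max_right T1 2).trans hT
    linarith)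
  have h1 := h T 0 a ((le_max_left _ _).trans hT) ha
  rw [zero_add] at h1
  unfold cum
  rw [div_le_iff₀ hX]
  nlinarith [mul_nonneg ha hX.le]

lemma cum_cont (hRH : RiemannHypothesis) (T : ℝ) : Continuous (cum T) := by
  unfold cum
  refine Continuous.div_const ?_ _
  exact intervalIntegral.continuous_primitive (fun a b => Wi hRH T a b) 0

lemma cum_nonneg (hRH : RiemannHypothesis) {T a : ℝ} (hT : 1 < T) (ha : 0 ≤ a) : 0 ≤ cum T a := by
  have h := cum_mono hRH hT ha
  have h0 : cum T 0 = 0 := by unfold cum; simp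
  linarith

/-- the integral of `cum` over `[0, 1]` -/
theorem cum_int_lim (hRH : RiemannHypothesis) :
    Tendsto (fun T => ∫ a in (0 : ℝ)..1, cum T a) atTop (𝓝 (2 / 3)) := by
  obtain ⟨C, T0, hC, hT0, hb⟩ := cum_bound hRH
  have h1 : ∫ a in (0 : ℝ)..1, (1 / 2 + a ^ 2 / 2) = 2 / 3 := by
    rw [intervalIntegral.integral_add (by simp) (by
      exact (by fun_prop : Continuous fun a : ℝ => a ^ 2 / 2).intervalIntegrable _ _),
      intervalIntegral.integral_div (f := fun x : ℝ => x ^ 2), integral_pow]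
    simp
    norm_num
  rw [← h1]
  refine intervalIntegral.tendsto_integral_filter_of_dominated_convergence (fun _ => 2 + C) ?_ ?_
    (by simp) ?_
  · exact Eventually.of_forall fun T => (cum_cont hRH T).aestronglyMeasurable
  · filter_upwards [eventually_ge_atTop T0] with T hT
    refine Eventually.of_forall fun a ha => ?_
    rw [Set.uIoc_of_le zero_le_one] at ha
    have hT1 : 1 < T := by linarith
    rw [Real.norm_eq_abs, abs_of_nonneg (cum_nonneg hRH hT1 ha.1.le)]
    have := hb T hT a ha.1.le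
    linarith [ha.2]
  · have h2 : ∀ᵐ a : ℝ, a ≠ 1 := by
      rw [ae_iff]
      simp
    filter_upwards [h2] with a ha1 ha
    rw [Set.uIoc_of_le zero_le_one] at ha
    exact cum_lim hRH ha.1 (lt_of_le_of_ne ha.2 ha1)

/-- the Fejér integral -/
lemma fejer (A z : ℝ) : 0 ≤ ∫ α in (0 : ℝ)..A, (A - α) * Real.cos (α * z) := by
  rcases eq_or_ne z 0 with rfl | hz
  · simp only [mul_zero, Real.cos_zero, mul_one]
    rw [intervalIntegral.integral_sub (by simp) (by simp), intervalIntegral.integral_const,
      int_id, smul_eq_mul]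
    nlinarith [sq_nonneg A]
  · have hd : ∀ α ∈ Set.uIcc 0 A, HasDerivAt (fun α => (A - α) * (Real.sin (α * z) / z) -
        Real.cos (α * z) / z ^ 2) ((A - α) * Real.cos (α * z)) α := by
      intro α _
      have h1 : HasDerivAt (fun α : ℝ => α * z) z α := by
        simpa using (hasDerivAt_id α).mul_const z
      have h2 := (h1.sin).div_const z
      have h3 := (h1.cos).div_const (z ^ 2)
      have h4 : HasDerivAt (fun α : ℝ => A - α) (-1) α := by
        simpa using (hasDerivAt_id α).const_sub A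
      have h5 := (h4.mul h2).sub h3
      refine h5.congr_deriv ?_
      field_simp
      ring
    rw [intervalIntegral.integral_eq_sub_of_hasDerivAt hd
      ((by fun_prop : Continuous fun α : ℝ => (A - α) * Real.cos (α * z)).intervalIntegrable _ _)]
    simp only [sub_self, zero_mul, Real.sin_zero, zero_div, mul_zero, Real.cos_zero]
    have : Real.cos (A * z) / z ^ 2 ≤ 1 / z ^ 2 :=
      div_le_div_of_nonneg_right (Real.cos_le_one _) (sq_nonneg z)
    linarith

lemma fejer0 (A : ℝ) : ∫ α in (0 : ℝ)..A, (A - α) * Real.cos (α * 0) = A ^ 2 / 2 := by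
  simp only [mul_zero, Real.cos_zero, mul_one]
  rw [intervalIntegral.integral_sub (by simp) (by simp), intervalIntegral.integral_const,
    int_id, smul_eq_mul]
  ring

/-- the diagonal -/
theorem diag (hRH : RiemannHypothesis) (T A : ℝ) :
    A ^ 2 / 2 * (H370.NN riemannZeta 0 T : ℝ) ≤
      ∫ α in (0 : ℝ)..A, (A - α) * Wp T (α * Real.log T) := by
  classical
  rw [int_Wp hRH (by fun_prop), ← Pool.Agent.Y744.sum_Zt]
  unfold K2
  rw [Finset.mul_sum]
  refine Finset.sum_le_sum fun s hs => ?_
  have hterm : ∀ s' ∈ H343.ZSide.Z0 T, 0 ≤ H343.ZSide.mz s * H343.ZSide.mz s' *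
      (4 / (4 + (s.im - s'.im) ^ 2) *
        ∫ α in (0 : ℝ)..A, (A - α) * Real.cos (α * Real.log T * (s.im - s'.im))) := by
    intro s' _
    have h1 := fejer A (Real.log T * (s.im - s'.im))
    simp_rw [← mul_assoc] at h1
    have := mz_nonneg s
    have := mz_nonneg s'
    positivity
  refine le_trans ?_ (Finset.single_le_sum hterm (a := s) hs)
  rw [sub_self]
  have h2 := fejer0 A
  simp only [mul_zero] at h2 ⊢
  rw [h2]
  have h3 : (1 : ℝ) ≤ H343.ZSide.mz s := by
    unfold H343.ZSide.mz
    have hs' : s ∈ H370.zset riemannZeta 0 T := by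
      rwa [← Pool.Agent.Y744.mem_Zt]
    have : 1 ≤ H370.mult riemannZeta s := H370.Loc.mult_pos' H370.good_zeta hs'.2.2.1 hs'.2.2.2.2
    exact_mod_cast this
  have h4 : Pool.Agent.Y744.mz s = H343.ZSide.mz s := rfl
  rw [h4]
  have : A ^ 2 / 2 * H343.ZSide.mz s ≤ A ^ 2 / 2 * (H343.ZSide.mz s * H343.ZSide.mz s) := by
    gcongr
    nlinarith
  refine this.trans (le_of_eq ?_)
  norm_num
  ring

end Pool.Agent.Helper84.OS
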