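import Pool.Agent.Helper84.OS.Cum

/-! One-sided bounds for Montgomery's function. -/

open Filter Topology Complex MeasureTheory

namespace Pool.Agent.Helper84.OS

open H332B

lemma int_cum (hRH : RiemannHypothesis) (T A : ℝ) :
    ∫ a in (0 : ℝ)..A, cum T a = (∫ α in (0 : ℝ)..A, (A - α) * Wp T (α * Real.log T)) / X T := by
  have hc := Wc hRH T
  set W : ℝ → ℝ := fun α => Wp T (α * Real.log T) with hW
  set J : ℝ → ℝ := fun a => ∫ α in (0 : ℝ)..a, W α with hJ
  have hJc : Continuous J := intervalIntegral.continuous_primitive (fun a b => Wi hRH T a b) 0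
  have hd : ∀ a ∈ Set.uIcc 0 A, HasDerivAt (fun a => (a - A) * J a) (J a - (A - a) * W a) a := by
    intro a _
    have h1 : HasDerivAt J (W a) a :=
      intervalIntegral.integral_hasDerivAt_right (Wi hRH T _ _)
        (hc.stronglyMeasurableAtFilter _ _) hc.continuousAt
    have h2 : HasDerivAt (fun a : ℝ => a - A) 1 a := by
      simpa using (hasDerivAt_id a).sub_const A
    refine (h2.mul h1).congr_deriv ?_
    ring
  have hAW : Continuous fun a : ℝ => (A - a) * W a := by fun_prop
  have h1 := intervalIntegral.integral_eq_sub_of_hasDerivAt hd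
    ((hJc.sub hAW).intervalIntegrable _ _)
  rw [intervalIntegral.integral_sub (hJc.intervalIntegrable _ _)
    (hAW.intervalIntegrable _ _)] at h1
  have h0 : J 0 = 0 := by rw [hJ]; simp
  rw [h0, sub_self, zero_mul, mul_zero, sub_zero, sub_eq_zero] at h1
  rw [← h1]
  unfold cum
  rw [intervalIntegral.integral_div]

/-- **the lower bound** -/
theorem key (hRH : RiemannHypothesis) {A : ℝ} (hA : 1 ≤ A) {ε : ℝ} (hε : 0 < ε) :
    ∀ᶠ T in atTop, -(1 / 6) - ε ≤ ∫ a in (1 : ℝ)..A, (cum T a - a) := by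
  have hA2 : 0 < A ^ 2 := by positivity
  obtain ⟨T1, hT1, h1⟩ := Pool.Agent.W54.TCF.NT_asymp' (ε / A ^ 2) (by positivity)
  have h2 := (Metric.tendsto_nhds.1 (cum_int_lim hRH)) (ε / 2) (by positivity)
  filter_upwards [h2, eventually_ge_atTop T1] with T h2 hT
  have hT1' : 1 < T := by linarith
  have hX := X_pos hT1'
  have h3 := (h1 T hT).1
  have h4 : T / (2 * Real.pi) * Real.log T = X T := by unfold X; ring
  rw [h4] at h3
  have h5 := diag hRH T A
  rw [Real.dist_eq, abs_lt] at h2
  have h6 : ∫ a in (0 : ℝ)..A, cum T a = (∫ a in (0 : ℝ)..1, cum T a) +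
      ∫ a in (1 : ℝ)..A, cum T a :=
    (intervalIntegral.integral_add_adjacent_intervals ((cum_cont hRH T).intervalIntegrable _ _)
      ((cum_cont hRH T).intervalIntegrable _ _)).symm
  rw [int_cum hRH] at h6
  have h7 : A ^ 2 / 2 * (1 - ε / A ^ 2) ≤
      (∫ α in (0 : ℝ)..A, (A - α) * Wp T (α * Real.log T)) / X T := by
    rw [le_div_iff₀ hX]
    refine le_trans ?_ h5
    rw [mul_assoc]
    gcongr
  have h8 : A ^ 2 / 2 * (1 - ε / A ^ 2) = A ^ 2 / 2 - ε / 2 := by
    field_simp
  have hid : Continuous fun a : ℝ => a := continuous_id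
  rw [intervalIntegral.integral_sub ((cum_cont hRH T).intervalIntegrable _ _)
    (hid.intervalIntegrable _ _)]
  have h9 : ∫ a in (1 : ℝ)..A, a = A ^ 2 / 2 - 1 / 2 := by
    rw [integral_id]
    ring
  rw [h9]
  linarith [h2.2]

/-- the integral of the conjectured function -/
noncomputable def mm (x : ℝ) : ℝ := ∫ α in (0 : ℝ)..x, min α 1

lemma min_cont : Continuous fun α : ℝ => min α 1 := by fun_prop

lemma mm_sub (b c : ℝ) : ∫ α in b..c, min α 1 = mm c - mm b := by
  unfold mm
  rw [intervalIntegral.integral_interval_sub_left (min_cont.intervalIntegrable _ _)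
    (min_cont.intervalIntegrable _ _)]

lemma mm_le_one {x : ℝ} (h0 : 0 ≤ x) (h1 : x ≤ 1) : mm x = x ^ 2 / 2 := by
  unfold mm
  rw [← int_id]
  refine intervalIntegral.integral_congr fun α hα => ?_
  rw [Set.uIcc_of_le h0] at hα
  exact min_eq_left (hα.2.trans h1)

lemma mm_one_le {x : ℝ} (h1 : 1 ≤ x) : mm x = x - 1 / 2 := by
  have h2 := mm_sub 1 x
  have h3 : ∫ α in (1 : ℝ)..x, min α 1 = ∫ α in (1 : ℝ)..x, (1 : ℝ) := by
    refine intervalIntegral.integral_congr fun α hα => ?_
    rw [Set.uIcc_of_le h1] at hα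
    exact min_eq_right hα.1
  rw [h3, intervalIntegral.integral_const, smul_eq_mul, mul_one,
    mm_le_one zero_le_one le_rfl] at h2
  linarith

/-- uniformity by monotonicity -/
lemma unif {l : Filter ℝ} {G : ℝ → ℝ → ℝ} {s A β : ℝ} (hsA : s ≤ A)
    (hmono : ∀ᶠ T in l, ∀ t t' : ℝ, t ≤ t' → G T t ≤ G T t')
    (h : ∀ t ∈ Set.Icc s A, ∀ ε : ℝ, 0 < ε → ∀ᶠ T in l, G T t ≤ t + β + ε) {ε : ℝ} (hε : 0 < ε) :
    ∀ᶠ T in l, ∀ t ∈ Set.Icc s A, G T t ≤ t + β + ε := by
  rcases eq_or_lt_of_le hsA with rfl | hlt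
  · filter_upwards [h s ⟨le_rfl, le_rfl⟩ ε hε] with T hT t ht
    rw [le_antisymm ht.2 ht.1]
    exact hT
  obtain ⟨n, hn⟩ := exists_nat_gt (2 * (A - s) / ε)
  have hn0 : (0 : ℝ) < n := lt_of_le_of_lt (by
    have : 0 ≤ A - s := by linarith
    positivity) hn
  set τ : ℕ → ℝ := fun j => s + (A - s) * j / n with hτ
  have hmem : ∀ j ∈ Finset.range (n + 1), τ j ∈ Set.Icc s A := by
    intro j hj
    have hj' : (j : ℝ) ≤ n := by
      have := Finset.mem_range.1 hj
      exact_mod_cast Nat.lt_succ_iff.1 this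
    have h0 : (0 : ℝ) ≤ j := Nat.cast_nonneg _
    constructor
    · show s ≤ s + (A - s) * j / n
      have : 0 ≤ (A - s) * j / n := by
        have : 0 ≤ A - s := by linarith
        positivity
      linarith
    · show s + (A - s) * j / n ≤ A
      have : (A - s) * j / n ≤ A - s := by
        rw [div_le_iff₀ hn0]
        have : 0 ≤ A - s := by linarith
        gcongr
      linarith
  have h1 : ∀ᶠ T in l, ∀ j ∈ Finset.range (n + 1), G T (τ j) ≤ τ j + β + ε / 2 := by
    rw [Filter.eventually_all_finset]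
    exact fun j hj => h _ (hmem j hj) (ε / 2) (by positivity)
  filter_upwards [h1, hmono] with T hT hm t ht
  set j : ℕ := ⌈(t - s) * n / (A - s)⌉₊ with hj
  have hAs : 0 < A - s := by linarith
  have hx0 : 0 ≤ (t - s) * n / (A - s) := by
    have : 0 ≤ t - s := by linarith [ht.1]
    positivity
  have hj1 : (t - s) * n / (A - s) ≤ j := Nat.le_ceil _
  have hj2 : (j : ℝ) < (t - s) * n / (A - s) + 1 := Nat.ceil_lt_add_one hx0
  have hjn : j ≤ n := by
    rw [hj, Nat.ceil_le, div_le_iff₀ hAs]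
    have : t - s ≤ A - s := by linarith [ht.2]
    nlinarith
  have h2 := hT j (Finset.mem_range.2 (by omega))
  have h3 : t ≤ τ j := by
    show t ≤ s + (A - s) * j / n
    have : t - s ≤ (A - s) * j / n := by
      rw [le_div_iff₀ hn0]
      rw [div_le_iff₀ hAs] at hj1
      linarith
    linarith
  have h4 : τ j ≤ t + ε / 2 := by
    show s + (A - s) * j / n ≤ t + ε / 2
    have h5 : (A - s) * j / n ≤ t - s + (A - s) / n := by
      rw [div_le_iff₀ hn0, add_mul, div_mul_cancel₀ _ hn0.ne']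
      have : (A - s) * (j : ℝ) ≤ (A - s) * ((t - s) * n / (A - s) + 1) := by gcongr
      refine this.trans (le_of_eq ?_)
      field_simp
    have h6 : (A - s) / n ≤ ε / 2 := by
      rw [div_lt_iff₀ hε] at hn
      rw [div_le_iff₀ hn0]
      linarith
    linarith
  have h5 := hm t (τ j) h3
  linarith

variable {l : Filter ℝ}

/-- upper bounds up to `η` on the intervals of `(0, A]` -/
def UH (l : Filter ℝ) (A η : ℝ) : Prop := ∀ b c : ℝ, 0 < b → b < c → c ≤ A → ∀ ε : ℝ, 0 < ε →
  ∀ᶠ T in l, cum T c - cum T b ≤ mm c - mm b + η + ε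

lemma cum_upper (hRH : RiemannHypothesis) (hl : l ≤ atTop) {A η : ℝ} (h : UH l A η) {t : ℝ}
    (ht0 : 0 < t) (htA : t ≤ A) {ε : ℝ} (hε : 0 < ε) :
    ∀ᶠ T in l, cum T t ≤ 1 / 2 + mm t + η + ε := by
  set b : ℝ := min t 1 / 2 with hb
  have hb0 : 0 < b := by
    have : 0 < min t 1 := lt_min ht0 one_pos
    linarith
  have hb1 : b < 1 := by
    have : min t 1 ≤ 1 := min_le_right _ _
    linarith
  have hbt : b < t := by
    have : min t 1 ≤ t := min_le_left _ _
    linarith
  have h1 := (Metric.tendsto_nhds.1 ((cum_lim hRH hb0 hb1).mono_left hl)) (ε / 2) (by positivity)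
  filter_upwards [h1, h b t hb0 hbt htA (ε / 2) (by positivity)] with T h1 h2
  rw [Real.dist_eq, abs_lt] at h1
  rw [mm_le_one hb0.le hb1.le] at h2
  linarith [h1.2]

/-- **deficit is controlled by excess** -/
theorem deficit (hRH : RiemannHypothesis) (hl : l ≤ atTop) {A η : ℝ} (hη : 0 ≤ η)
    (h : UH l A η) {b c : ℝ} (hb : 0 < b) (hbc : b < c) (hcA : c < A) {ε : ℝ} (hε : 0 < ε) :
    ∀ᶠ T in l, mm c - mm b - (1 / 6 + 2 * A * η) / (A - c) - ε ≤ cum T c - cum T b := by
  have hA0 : 0 < A := by linarith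
  have hAc : 0 < A - c := by linarith
  rcases lt_or_ge c 1 with hc1 | hc1
  · have h1 := (Metric.tendsto_nhds.1 ((cum_lim hRH hb (hbc.trans hc1)).mono_left hl)) (ε / 2)
      (by positivity)
    have h2 := (Metric.tendsto_nhds.1 ((cum_lim hRH (hb.trans hbc) hc1).mono_left hl)) (ε / 2)
      (by positivity)
    filter_upwards [h1, h2] with T h1 h2
    rw [Real.dist_eq, abs_lt] at h1 h2
    rw [mm_le_one (hb.trans hbc).le hc1.le, mm_le_one hb.le (hbc.trans hc1).le]
    have h3 : 0 ≤ (1 / 6 + 2 * A * η) / (A - c) := by positivity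
    linarith [h1.2, h2.1]
  have hA1 : 1 < A := by linarith
  set δ : ℝ := (1 / 6 + 2 * A * η) / (A - c) + ε with hδ
  set e : ℝ := ε * (A - c) / (4 * A + 2) with he
  have he0 : 0 < e := by positivity
  have E1 := (key hRH hA1.le he0).filter_mono hl
  have hm : ∀ᶠ T in l, ∀ t t' : ℝ, t ≤ t' → cum T t ≤ cum T t' := by
    filter_upwards [(eventually_gt_atTop (1 : ℝ)).filter_mono hl] with T hT t t' htt'
    exact cum_mono hRH hT htt'
  have E2 := unif (l := l) (G := cum) (s := 1) (A := c) (β := η) hc1 hm (fun t ht ε' hε' => by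
    filter_upwards [cum_upper hRH hl h (t := t) (by linarith [ht.1]) (ht.2.trans hcA.le) hε']
      with T hT
    rw [mm_one_le ht.1] at hT
    linarith) he0
  have E3 := unif (l := l) (G := fun T t => cum T t - cum T c) (s := c) (A := A) (β := η - c)
    hcA.le (by
      filter_upwards [hm] with T hT t t' htt'
      have := hT t t' htt'
      linarith) (fun t ht ε' hε' => by
    rcases eq_or_lt_of_le ht.1 with h0 | h0
    · refine Eventually.of_forall fun T => ?_
      show cum T t - cum T c ≤ _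
      rw [← h0]
      linarith
    · filter_upwards [h c t (by linarith) h0 ht.2 ε' hε'] with T hT
      rw [mm_one_le (hc1.trans ht.1), mm_one_le hc1] at hT
      show cum T t - cum T c ≤ _
      linarith) he0
  have E4 := cum_upper hRH hl h hb (hbc.le.trans hcA.le) he0
  filter_upwards [E1, E2, E3, E4] with T h1 h2 h3 h4
  by_contra hcon
  push Not at hcon
  have hcc := (cum_cont hRH T)
  have hci : ∀ x y : ℝ, IntervalIntegrable (fun a => cum T a - a) volume x y := fun x y =>
    (hcc.sub continuous_id).intervalIntegrable _ _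
  have h5 : cum T c ≤ c + η + e - δ := by
    rw [mm_one_le hc1] at hcon
    rw [hδ]
    linarith
  rw [← intervalIntegral.integral_add_adjacent_intervals (hci 1 c) (hci c A)] at h1
  have h6 : ∫ a in (1 : ℝ)..c, (cum T a - a) ≤ (c - 1) * (η + e) := by
    have : ∫ a in (1 : ℝ)..c, (cum T a - a) ≤ ∫ a in (1 : ℝ)..c, (η + e) := by
      refine intervalIntegral.integral_mono_on hc1 (hci _ _) (by simp) fun a ha => ?_
      linarith [h2 a ha]
    rwa [intervalIntegral.integral_const, smul_eq_mul] at this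
  have h7 : ∫ a in c..A, (cum T a - a) ≤ (A - c) * (2 * η + 2 * e - δ) := by
    have : ∫ a in c..A, (cum T a - a) ≤ ∫ a in c..A, (2 * η + 2 * e - δ) := by
      refine intervalIntegral.integral_mono_on hcA.le (hci _ _) (by simp) fun a ha => ?_
      have := h3 a ha
      linarith
    rwa [intervalIntegral.integral_const, smul_eq_mul] at this
  have h8 : (A - c) * δ = 1 / 6 + 2 * A * η + ε * (A - c) := by
    rw [hδ]
    field_simp
  have h9 : e * (4 * A + 2) = ε * (A - c) := by
    rw [he]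
    field_simp
  nlinarith [mul_nonneg hη (by linarith : (0 : ℝ) ≤ c), mul_nonneg hη (by linarith : (0 : ℝ) ≤ A),
    mul_pos he0 (by linarith : (0 : ℝ) < c), mul_pos he0 hA0]

end Pool.Agent.Helper84.OS
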