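import Pool.Graph.R_seed8.Y744.PCR.NTd

/-! Smooth cut-offs as test functions of Montgomery's theorem. -/

open Filter Topology Complex MeasureTheory
open scoped FourierTransform SchwartzMap

namespace Pool.Agent.Helper84.OS

open Pool.Agent.Y744 Pool.Agent.Results.MP_103a5c_nt.BohrSetPairs

/-- the cut-off -/
noncomputable def cut (a b x : ℝ) : ℝ := Real.smoothTransition ((b ^ 2 - x ^ 2) / (b ^ 2 - a ^ 2))

variable {a b : ℝ}

lemma cut_nonneg (x : ℝ) : 0 ≤ cut a b x := Real.smoothTransition.nonneg _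

lemma cut_le_one (x : ℝ) : cut a b x ≤ 1 := Real.smoothTransition.le_one _

lemma cut_one (ha : 0 ≤ a) (hab : a < b) {x : ℝ} (hx : |x| ≤ a) : cut a b x = 1 := by
  unfold cut
  apply Real.smoothTransition.one_of_one_le
  rw [le_div_iff₀ (by nlinarith)]
  have : x ^ 2 ≤ a ^ 2 := by rw [← sq_abs x]; gcongr
  linarith

lemma cut_zero (ha : 0 ≤ a) (hab : a < b) {x : ℝ} (hx : b ≤ |x|) : cut a b x = 0 := by
  unfold cut
  apply Real.smoothTransition.zero_of_nonpos
  have hb : 0 ≤ b := by linarith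
  have h1 : b ^ 2 ≤ x ^ 2 := by rw [← sq_abs x]; gcongr
  exact div_nonpos_of_nonpos_of_nonneg (by linarith) (by nlinarith)

lemma cut_neg (x : ℝ) : cut a b (-x) = cut a b x := by unfold cut; rw [neg_sq]

lemma cut_smooth : ContDiff ℝ ((⊤ : ℕ∞) : WithTop ℕ∞) (cut a b) := by
  unfold cut
  exact Real.smoothTransition.contDiff.comp
    (((contDiff_const).sub (contDiff_id.pow 2)).div_const _)

lemma cut_cont : Continuous (cut a b) := cut_smooth.continuous

lemma cut_supp (ha : 0 ≤ a) (hab : a < b) : HasCompactSupport (fun x => (cut a b x : ℂ)) := by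
  refine HasCompactSupport.intro (isCompact_Icc (a := -b) (b := b)) fun x hx => ?_
  rw [cut_zero ha hab, ofReal_zero]
  by_contra hc
  push Not at hc
  exact hx (abs_le.1 hc.le)

lemma cutC_smooth : ContDiff ℝ ((⊤ : ℕ∞) : WithTop ℕ∞) (fun x => (cut a b x : ℂ)) :=
  Complex.ofRealCLM.contDiff.comp cut_smooth

/-- the cut-off as a Schwartz function -/
noncomputable def cutS (ha : 0 ≤ a) (hab : a < b) : 𝓢(ℝ, ℂ) :=
  (cut_supp ha hab).toSchwartzMap cutC_smooth

lemma cutS_apply (ha : 0 ≤ a) (hab : a < b) (x : ℝ) : cutS ha hab x = (cut a b x : ℂ) := rfl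

lemma r_eq (ha : 0 ≤ a) (hab : a < b) (hb : b < 1) (y : ℝ) :
    r (cut a b) y = ((𝓕 (cutS ha hab) : 𝓢(ℝ, ℂ)) y).re := by
  rw [SchwartzMap.fourier_coe, Real.fourier_real_eq_integral_exp_smul]
  have hint : Integrable (fun v : ℝ => cexp (((-2 * Real.pi * v * y : ℝ) : ℂ) * I) • cutS ha hab v) := by
    have h1 : Integrable (fun v : ℝ => cutS ha hab v) := (cutS ha hab).integrable
    refine h1.norm.mono' ?_ (Eventually.of_forall fun v => ?_)
    · apply Continuous.aestronglyMeasurable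
      have := (cutS ha hab).continuous
      fun_prop
    · rw [norm_smul, Complex.norm_exp_ofReal_mul_I, one_mul]
  have h2 := integral_re hint
  change ∫ v : ℝ, (cexp (((-2 * Real.pi * v * y : ℝ) : ℂ) * I) • cutS ha hab v).re = _ at h2
  rw [show RCLike.re (∫ v : ℝ, cexp (((-2 * Real.pi * v * y : ℝ) : ℂ) * I) • cutS ha hab v) =
    (∫ v : ℝ, cexp (((-2 * Real.pi * v * y : ℝ) : ℂ) * I) • cutS ha hab v).re from rfl] at h2
  rw [← h2]
  unfold r
  rw [intervalIntegral.integral_of_le (by norm_num), ← integral_Icc_eq_integral_Ioc]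
  rw [setIntegral_eq_integral_of_forall_compl_eq_zero]
  · refine integral_congr_ae (Eventually.of_forall fun v => ?_)
    show cut a b v * Real.cos (2 * Real.pi * y * v) =
      (cexp (((-2 * Real.pi * v * y : ℝ) : ℂ) * I) • cutS ha hab v).re
    rw [cutS_apply, smul_eq_mul, mul_comm (cexp _), Complex.re_ofReal_mul,
      Complex.exp_ofReal_mul_I_re, ← Real.cos_neg]
    congr 2
    ring
  · intro x hx
    rw [cut_zero ha hab, zero_mul]
    by_contra hc
    push Not at hc
    exact hx (abs_le.1 (hc.le.trans hb.le))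

/-- the transform of the cut-off -/
noncomputable def cf (a b y : ℝ) : ℝ := r (cut a b) y

lemma cf_facts (ha : 0 ≤ a) (hab : a < b) (hb : b < 1) : ∃ K, 0 ≤ K ∧
    (∀ y, |cf a b y| ≤ K / (1 + y ^ 2)) ∧ Differentiable ℝ (cf a b) ∧
    (∀ y, |y * deriv (cf a b) y| ≤ K / (1 + y ^ 2)) := by
  set g : 𝓢(ℝ, ℂ) := 𝓕 (cutS ha hab) with hg
  have hcf : cf a b = fun y => (g y).re := funext fun y => r_eq ha hab hb y
  have hd : ∀ y, HasDerivAt (cf a b) (deriv g y).re y := by
    intro y
    rw [hcf]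
    exact Complex.reCLM.hasFDerivAt.comp_hasDerivAt y (g.differentiableAt.hasDerivAt)
  obtain ⟨C0, hC0, h0⟩ := g.decay 0 0
  obtain ⟨C2, hC2, h2⟩ := g.decay 2 0
  obtain ⟨D1, hD1, e1⟩ := g.decay 1 1
  obtain ⟨D3, hD3, e3⟩ := g.decay 3 1
  have hit : ∀ y, ‖iteratedFDeriv ℝ 1 g y‖ = ‖deriv g y‖ := by
    intro y
    rw [norm_iteratedFDeriv_eq_norm_iteratedDeriv, iteratedDeriv_one]
  refine ⟨C0 + C2 + D1 + D3, by positivity, fun y => ?_, fun y => (hd y).differentiableAt,
    fun y => ?_⟩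
  · have a0 := h0 y
    have a2 := h2 y
    rw [norm_iteratedFDeriv_zero] at a0 a2
    rw [pow_zero, one_mul] at a0
    rw [Real.norm_eq_abs, sq_abs] at a2
    have h3 : |cf a b y| ≤ ‖g y‖ := by
      rw [hcf]
      exact Complex.abs_re_le_norm _
    rw [le_div_iff₀ (by positivity)]
    calc |cf a b y| * (1 + y ^ 2) ≤ ‖g y‖ * (1 + y ^ 2) := by gcongr
      _ = ‖g y‖ + y ^ 2 * ‖g y‖ := by ring
      _ ≤ _ := by linarith
  · have a1 := e1 y
    have a3 := e3 y
    rw [hit] at a1 a3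
    rw [Real.norm_eq_abs] at a1 a3
    rw [pow_one] at a1
    rw [(hd y).deriv]
    have h3 : |(deriv g y).re| ≤ ‖deriv g y‖ := Complex.abs_re_le_norm _
    rw [le_div_iff₀ (by positivity), abs_mul]
    have h4 : |y| ^ 3 = |y| * y ^ 2 := by rw [← sq_abs y]; ring
    rw [h4] at a3
    calc |y| * |(deriv g y).re| * (1 + y ^ 2) ≤ |y| * ‖deriv g y‖ * (1 + y ^ 2) := by gcongr
      _ = |y| * ‖deriv g y‖ + |y| * y ^ 2 * ‖deriv g y‖ := by ring
      _ ≤ _ := by linarith

theorem ntf (ha : 0 ≤ a) (hab : a < b) (hb : b < 1) : NTf (cut a b) b (cf a b) := by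
  obtain ⟨K, hK, h1, h2, h3⟩ := cf_facts ha hab hb
  refine ⟨⟨cut_cont, cut_neg, fun x hx => cut_zero ha hab hx, K, h1⟩, by linarith, hb,
    fun _ => rfl, fun x => ?_, K, hK, fun y s hs => ?_⟩
  · show r _ _ = r _ _
    unfold r
    refine intervalIntegral.integral_congr fun α _ => ?_
    show _ * Real.cos _ = _ * Real.cos _
    rw [← Real.cos_neg]
    congr 2
    ring
  · have h4 : ∀ t ∈ Set.Icc 1 s, HasDerivWithinAt (fun t => cf a b (t * y))
        (deriv (cf a b) (t * y) * y) (Set.Icc 1 s) t := by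
      intro t _
      have h5 : HasDerivAt (fun t : ℝ => t * y) y t := by
        simpa using (hasDerivAt_id t).mul_const y
      exact ((h2 (t * y)).hasDerivAt.comp t h5).hasDerivWithinAt
    have h5 : ∀ t ∈ Set.Icc 1 s, ‖deriv (cf a b) (t * y) * y‖ ≤ K / (1 + y ^ 2) := by
      intro t ht
      have ht1 : 1 ≤ t := ht.1
      have h6 := h3 (t * y)
      rw [Real.norm_eq_abs]
      calc |deriv (cf a b) (t * y) * y| ≤ t * |deriv (cf a b) (t * y) * y| := by
            nlinarith [abs_nonneg (deriv (cf a b) (t * y) * y)]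
        _ = |t * y * deriv (cf a b) (t * y)| := by
            rw [show t * y * deriv (cf a b) (t * y) = t * (deriv (cf a b) (t * y) * y) by ring,
              abs_mul t, abs_of_pos (by linarith : (0 : ℝ) < t)]
        _ ≤ K / (1 + (t * y) ^ 2) := h6
        _ ≤ K / (1 + y ^ 2) := by
            refine div_le_div_of_nonneg_left hK (by positivity) ?_
            have : y ^ 2 ≤ (t * y) ^ 2 := by
              rw [mul_pow]
              nlinarith [sq_nonneg y, sq_nonneg (t - 1)]
            linarith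
    have h6 := (convex_Icc 1 s).norm_image_sub_le_of_norm_hasDerivWithin_le h4 h5
      (Set.left_mem_Icc.2 hs) (Set.right_mem_Icc.2 hs)
    rw [one_mul] at h6
    rw [Real.norm_eq_abs, Real.norm_eq_abs, abs_of_nonneg (by linarith : 0 ≤ s - 1)] at h6
    refine h6.trans (le_of_eq ?_)
    ring

end Pool.Agent.Helper84.OS
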