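import Pool.Agent.Helper84.OS.Test
import Pool.Graph.R_pool_sql_team_seeded_f0cf7b00.H332B.Avg
import Pool.Graph.R_pool_sql_team_seeded_f0cf7b00.H332B.NTb
import Pool.Graph.R_pool_sql_team_seeded_f0cf7b00.H332B.Cell

/-! Montgomery's theorem with the weight `w(u) = 4/(4+u²)`. -/

open Filter Topology Complex MeasureTheory

namespace Pool.Agent.Helper84.OS

open Pool.Agent.Y744 (NTf Q2 Xf mont_lim)
open Pool.Agent.Results.MP_103a5c_nt.BohrSetPairs (r mont)
open H332B

/-- the integral of `Wp` against a test function -/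
lemma int_Wp (hRH : RiemannHypothesis) {R : ℝ → ℝ} (hR : Continuous R) (T c d : ℝ) :
    ∫ α in c..d, R α * Wp T (α * Real.log T) = K2 T (fun x => 4 / (4 + x ^ 2) *
      ∫ α in c..d, R α * Real.cos (α * Real.log T * x)) := by
  have h1 : ∀ α : ℝ, R α * Wp T (α * Real.log T) = ∑ s ∈ H343.ZSide.Z0 T,
      ∑ s' ∈ H343.ZSide.Z0 T, (H343.ZSide.mz s * H343.ZSide.mz s' *
        (4 / (4 + (s.im - s'.im) ^ 2))) *
        (R α * Real.cos (α * Real.log T * (s.im - s'.im))) := by
    intro α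
    rw [wpc hRH]
    unfold K2
    rw [Finset.mul_sum]
    refine Finset.sum_congr rfl fun s _ => ?_
    rw [Finset.mul_sum]
    refine Finset.sum_congr rfl fun s' _ => ?_
    ring
  simp_rw [h1]
  have hc : ∀ x : ℝ, Continuous fun α : ℝ => R α * Real.cos (α * Real.log T * x) := fun x => by
    fun_prop
  rw [intervalIntegral.integral_finsetSum]
  · unfold K2
    refine Finset.sum_congr rfl fun s _ => ?_
    rw [intervalIntegral.integral_finsetSum]
    · refine Finset.sum_congr rfl fun s' _ => ?_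
      rw [intervalIntegral.integral_const_mul]
      ring
    · intro s' _
      exact ((hc _).const_mul _).intervalIntegrable _ _
  · intro s _
    refine (continuous_finsetSum _ fun s' _ => (hc _).const_mul _).intervalIntegrable _ _

lemma mz_nonneg (s : ℂ) : 0 ≤ H343.ZSide.mz s := Nat.cast_nonneg _

/-- monotonicity in the kernel -/
lemma K2_mono {T : ℝ} {f g : ℝ → ℝ} (h : ∀ x, f x ≤ g x) : K2 T f ≤ K2 T g := by
  unfold K2
  exact Finset.sum_le_sum fun s _ => Finset.sum_le_sum fun s' _ =>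
    mul_le_mul_of_nonneg_left (h _) (mul_nonneg (mz_nonneg s) (mz_nonneg s'))

lemma K2_smul {T : ℝ} (c : ℝ) (f : ℝ → ℝ) : K2 T (fun x => c * f x) = c * K2 T f := by
  unfold K2
  rw [Finset.mul_sum]
  refine Finset.sum_congr rfl fun s _ => ?_
  rw [Finset.mul_sum]
  exact Finset.sum_congr rfl fun s' _ => by ring

lemma K2_sub_abs {T : ℝ} (f g h : ℝ → ℝ) (hh : ∀ x, |f x - g x| ≤ h x) :
    |K2 T f - K2 T g| ≤ K2 T h := by
  unfold K2
  rw [← Finset.sum_sub_distrib]
  refine (Finset.abs_sum_le_sum_abs _ _).trans (Finset.sum_le_sum fun s _ => ?_)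
  rw [← Finset.sum_sub_distrib]
  refine (Finset.abs_sum_le_sum_abs _ _).trans (Finset.sum_le_sum fun s' _ => ?_)
  rw [← mul_sub, abs_mul, abs_of_nonneg (mul_nonneg (mz_nonneg s) (mz_nonneg s'))]
  exact mul_le_mul_of_nonneg_left (hh _) (mul_nonneg (mz_nonneg s) (mz_nonneg s'))

/-- the trivial bound of the weighted pair sum -/
lemma K2_w : ∃ C T0 : ℝ, 0 < C ∧ 10 ≤ T0 ∧ ∀ T : ℝ, T0 ≤ T →
    K2 T (fun x => 4 / (4 + x ^ 2)) ≤ C * (T * (Real.log T) ^ 2) := by
  classical
  obtain ⟨C, T0, hC, hT0, h⟩ := ntb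
  refine ⟨80 * C, T0, by positivity, hT0, fun T hT => ?_⟩
  have h1 := cell (H343.ZSide.Z0 T) H343.ZSide.mz 1 (fun x => 1 / (1 + x ^ 2)) one_pos mz_nonneg
    (fun x => ⟨by positivity, le_rfl⟩)
  simp only [div_one] at h1
  have h2 : K2 T (fun x => 4 / (4 + x ^ 2)) ≤ K2 T (fun x => 4 * (1 / (1 + x ^ 2))) := by
    refine K2_mono fun x => ?_
    rw [mul_one_div, div_le_div_iff₀ (by positivity) (by positivity)]
    nlinarith [sq_nonneg x]
  rw [K2_smul] at h2
  have h3 : K2 T (fun x => 1 / (1 + x ^ 2)) ≤ 20 * N2 T 1 := by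
    refine h1.trans (le_of_eq ?_)
    congr 1
  have h4 := (h T hT).2
  linarith

lemma X_eq (T : ℝ) : X T = Xf T := rfl

lemma Q2_eq (f : ℝ → ℝ) (T Λ : ℝ) : Q2 f T Λ = K2 T (fun x => f (x * Λ / (2 * Real.pi))) := rfl

/-- **Montgomery's theorem for `Wp`** -/
theorem mont_Wp (hRH : RiemannHypothesis) {R : ℝ → ℝ} {κ : ℝ} {f : ℝ → ℝ} (h : NTf R κ f) :
    Tendsto (fun T => (∫ α in (-1 : ℝ)..1, R α * Wp T (α * Real.log T)) / X T) atTop
      (𝓝 (mont R)) := by
  have h1 := mont_lim hRH h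
  obtain ⟨K, hK, hf⟩ := h.decay
  obtain ⟨C, T0, hC, hT0, hw⟩ := K2_w
  have hpi := Real.pi_pos
  have hR := h.test.cont
  have h2 : Tendsto (fun T => (∫ α in (-1 : ℝ)..1, R α * Wp T (α * Real.log T)) / X T -
      Q2 f T (Real.log T) / Xf T) atTop (𝓝 0) := by
    have h3 : Tendsto (fun T : ℝ => K * Real.pi ^ 2 * C * (2 * Real.pi) * (Real.log T)⁻¹) atTop
        (𝓝 (K * Real.pi ^ 2 * C * (2 * Real.pi) * 0)) :=
      (tendsto_inv_atTop_zero.comp Real.tendsto_log_atTop).const_mul _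
    rw [mul_zero] at h3
    refine squeeze_zero_norm' ?_ h3
    filter_upwards [eventually_ge_atTop T0] with T hT
    have hT10 : 10 ≤ T := hT0.trans hT
    have hL : 0 < Real.log T := Real.log_pos (by linarith)
    have hX : 0 < X T := by unfold X; positivity
    rw [← X_eq, ← sub_div, Real.norm_eq_abs, abs_div, abs_of_pos hX, div_le_iff₀ hX,
      int_Wp hRH hR, Q2_eq]
    have h4 : ∀ x : ℝ, |4 / (4 + x ^ 2) * (∫ α in (-1 : ℝ)..1, R α *
        Real.cos (α * Real.log T * x)) - f (x * Real.log T / (2 * Real.pi))| ≤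
        K * Real.pi ^ 2 / (Real.log T) ^ 2 * (4 / (4 + x ^ 2)) := by
      intro x
      have e1 : (∫ α in (-1 : ℝ)..1, R α * Real.cos (α * Real.log T * x)) =
          f (x * Real.log T / (2 * Real.pi)) := by
        rw [← h.eq]
        unfold r
        refine intervalIntegral.integral_congr fun α _ => ?_
        show _ * Real.cos _ = _ * Real.cos _
        congr 2
        field_simp
      rw [e1]
      have e2 : 4 / (4 + x ^ 2) * f (x * Real.log T / (2 * Real.pi)) -
          f (x * Real.log T / (2 * Real.pi)) = -(x ^ 2 / (4 + x ^ 2) *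
            f (x * Real.log T / (2 * Real.pi))) := by
        field_simp
        ring
      rw [e2, abs_neg, abs_mul, abs_of_nonneg (by positivity : 0 ≤ x ^ 2 / (4 + x ^ 2))]
      refine (mul_le_mul_of_nonneg_left (hf _) (by positivity)).trans ?_
      rw [div_mul_div_comm, div_mul_div_comm, div_le_div_iff₀ (by positivity) (by positivity)]
      have e3 : (x * Real.log T / (2 * Real.pi)) ^ 2 = x ^ 2 * (Real.log T) ^ 2 /
          (4 * Real.pi ^ 2) := by
        field_simp
        ring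
      rw [e3]
      have e4 : K * Real.pi ^ 2 * 4 * ((4 + x ^ 2) * (1 + x ^ 2 * (Real.log T) ^ 2 /
          (4 * Real.pi ^ 2))) = K * (4 + x ^ 2) * (4 * Real.pi ^ 2 + x ^ 2 * (Real.log T) ^ 2) := by
        field_simp
      rw [e4]
      have e5 : 0 ≤ K * (4 + x ^ 2) * (4 * Real.pi ^ 2) := by positivity
      nlinarith
    refine (K2_sub_abs _ _ _ h4).trans ?_
    rw [K2_smul]
    have h5 := hw T hT
    calc K * Real.pi ^ 2 / (Real.log T) ^ 2 * K2 T (fun x => 4 / (4 + x ^ 2)) ≤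
        K * Real.pi ^ 2 / (Real.log T) ^ 2 * (C * (T * (Real.log T) ^ 2)) := by gcongr
      _ = _ := by
        unfold X
        field_simp
  have h3 := h2.add h1
  rw [zero_add] at h3
  refine h3.congr fun T => ?_
  ring

end Pool.Agent.Helper84.OS
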